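import Mathlib

/-!
# The sharp number of bounded components of the curve where `R'` is real

For a pole divisor `D` with `s` finite poles, `s ≥ 1`, the maximal number of bounded components is
`s` if `∞` is a pole and `s - 1` if not.

* Upper bound. The real function `R'` has no maximum on a relatively open subset of the curve
  without poles (open mapping theorem). A bounded component has small compact relatively open
  neighbourhoods in the curve; so it contains a pole. If `∞` is not a pole, then `R' → 0` at `∞`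
  through positive values (among others); if all the poles were in bounded components, then `R'`
  would have a maximum on the complement of a compact relatively open set that contains the poles.
* Lower bound. One polar part (the one at `∞`, if there is one) has a derivative which is not real
  at the other poles; the other polar parts are multiplied by a small number, so that the curve does
  not meet small circles around the other poles.
-/
set_option autoImplicit false
open Polynomial Set Topology Filter Metric Bornology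

namespace Pool.Agent.Results.MP_bd2914_ag.BoundedComponents

/-- A bounded component of a closed set has arbitrarily small compact neighbourhoods that are
relatively open. -/
lemma exists_compact_nhd {F : Set ℂ} (hF : IsClosed F) {z₀ : ℂ} (hz : z₀ ∈ F)
    (hb : IsBounded (connectedComponentIn F z₀)) {E : Set ℂ} (hE : IsClosed E)
    (hd : Disjoint (connectedComponentIn F z₀) E) :
    ∃ M : Set ℂ, IsCompact M ∧ (∃ U, IsOpen U ∧ M = F ∩ U) ∧ connectedComponentIn F z₀ ⊆ M ∧
      Disjoint M E := by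
  obtain ⟨ρ, hρ⟩ := hb.subset_ball (0 : ℂ)
  set X : Set ℂ := F ∩ closedBall 0 ρ with hX
  have hXc : IsCompact X := (isCompact_closedBall 0 ρ).inter_left hF
  have hzX : z₀ ∈ X := ⟨hz, ball_subset_closedBall (hρ (mem_connectedComponentIn hz))⟩
  have hCX : connectedComponentIn F z₀ = connectedComponentIn X z₀ := by
    apply Subset.antisymm
    · exact isPreconnected_connectedComponentIn.subset_connectedComponentIn
        (mem_connectedComponentIn hz)
        (subset_inter (connectedComponentIn_subset F z₀) (hρ.trans ball_subset_closedBall))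
    · exact connectedComponentIn_mono z₀ inter_subset_left
  have : CompactSpace X := isCompact_iff_compactSpace.mp hXc
  have himg : connectedComponentIn X z₀ = Subtype.val '' connectedComponent (⟨z₀, hzX⟩ : X) :=
    connectedComponentIn_eq_image hzX
  set E' : Set X := {x | (x : ℂ) ∈ E ∪ sphere 0 ρ} with hE'
  have hE'c : IsClosed E' := (hE.union isClosed_sphere).preimage continuous_subtype_val
  have hemp : E' ∩ ⋂ s : { s : Set X // IsClopen s ∧ (⟨z₀, hzX⟩ : X) ∈ s }, (s : Set X) = ∅ := by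
    rw [← connectedComponent_eq_iInter_isClopen]
    rw [eq_empty_iff_forall_notMem]
    rintro x ⟨hx1, hx2⟩
    have hxC : (x : ℂ) ∈ connectedComponentIn F z₀ := by
      rw [hCX, himg]; exact mem_image_of_mem _ hx2
    rcases hx1 with h | h
    · exact disjoint_left.mp hd hxC h
    · have := hρ hxC
      rw [mem_sphere] at h
      rw [mem_ball] at this
      linarith
  obtain ⟨u, hu⟩ := hE'c.isCompact.elim_finite_subfamily_closed _ (fun s => s.2.1.1) hemp
  set K : Set X := ⋂ s ∈ u, (s : Set X) with hK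
  have hKclopen : IsClopen K := isClopen_biInter_finset fun s _ => s.2.1
  obtain ⟨V, hV, hKV⟩ := isOpen_induced_iff.mp hKclopen.2
  have hMV : Subtype.val '' K = X ∩ V := by
    rw [← hKV, Subtype.image_preimage_coe]
  have hcomp : connectedComponentIn F z₀ ⊆ Subtype.val '' K := by
    rw [hCX, himg]
    refine image_mono ?_
    rw [connectedComponent_eq_iInter_isClopen]
    exact fun x hx => mem_iInter₂.mpr fun s _ => mem_iInter.mp hx s
  have hdis : ∀ x ∈ Subtype.val '' K, x ∉ E ∪ sphere (0 : ℂ) ρ := by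
    rintro _ ⟨x, hx, rfl⟩ hxE
    have : x ∈ E' ∩ K := ⟨hxE, hx⟩
    rw [hu] at this
    exact this
  refine ⟨Subtype.val '' K, (hKclopen.1.isCompact).image continuous_subtype_val,
    ⟨V ∩ ball 0 ρ, hV.inter isOpen_ball, ?_⟩, hcomp, ?_⟩
  · ext x
    constructor
    · intro hx
      have hx' := hx
      rw [hMV] at hx'
      refine ⟨hx'.1.1, hx'.2, ?_⟩
      have h1 := hdis x hx
      have h2 := hx'.1.2
      rw [mem_closedBall] at h2
      rw [mem_ball]
      refine lt_of_le_of_ne h2 fun h => h1 (Or.inr ?_)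
      rw [mem_sphere]; exact h
    · rintro ⟨h1, h2, h3⟩
      rw [hMV]
      exact ⟨⟨h1, ball_subset_closedBall h3⟩, h2⟩
  · rw [disjoint_left]
    exact fun x hx hxE => hdis x hx (Or.inl hxE)

/-- The set where `f` is real, together with the poles. -/
def realSet (f : ℂ → ℂ) (S : Set ℂ) : Set ℂ := {z | z ∈ S ∨ (f z).im = 0}

/-- `f` is analytic and nowhere locally constant off `S`. -/
def Good (f : ℂ → ℂ) (S : Set ℂ) : Prop :=
  ∀ z ∉ S, AnalyticAt ℂ f z ∧ ¬ ∀ᶠ w in 𝓝 z, f w = f z

lemma isClosed_realSet {f : ℂ → ℂ} {S : Set ℂ} (hS : IsClosed S) (hf : Good f S) :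
    IsClosed (realSet f S) := by
  rw [← isOpen_compl_iff, isOpen_iff_mem_nhds]
  intro z hz
  have hz' : z ∉ S ∧ (f z).im ≠ 0 := by
    simpa [realSet] using hz
  have h1 := hS.isOpen_compl.mem_nhds hz'.1
  have h2 : ∀ᶠ w in 𝓝 z, (f w).im ≠ 0 :=
    (Complex.continuous_im.continuousAt.comp (hf z hz'.1).1.continuousAt).eventually_ne hz'.2
  filter_upwards [h1, h2] with w hw1 hw2
  simp only [realSet, mem_compl_iff, mem_ofPred_eq, not_or]
  exact ⟨hw1, hw2⟩

/-- No maximum of `f` on a relatively open subset without poles. -/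
lemma no_max {f : ℂ → ℂ} {S : Set ℂ} (hS : IsClosed S) (hf : Good f S) {M U : Set ℂ}
    (hU : IsOpen U) (hM : M = realSet f S ∩ U) (hMS : Disjoint M S) {z₀ : ℂ} (hz : z₀ ∈ M) :
    ∃ z ∈ M, (f z₀).re < (f z).re := by
  have hzS : z₀ ∉ S := disjoint_left.mp hMS hz
  have hmap := (hf z₀ hzS).1.eventually_constant_or_nhds_le_map_nhds.resolve_left (hf z₀ hzS).2
  have hz' := hz
  rw [hM] at hz'
  have hV : U ∩ Sᶜ ∈ 𝓝 z₀ := inter_mem (hU.mem_nhds hz'.2) (hS.isOpen_compl.mem_nhds hzS)
  have himg : f '' (U ∩ Sᶜ) ∈ 𝓝 (f z₀) := hmap (image_mem_map hV)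
  obtain ⟨ε, hε, hball⟩ := Metric.mem_nhds_iff.mp himg
  have hmem : f z₀ + ((ε / 2 : ℝ) : ℂ) ∈ ball (f z₀) ε := by
    rw [mem_ball, dist_eq_norm, add_sub_cancel_left, Complex.norm_real, Real.norm_eq_abs,
      abs_of_pos (by linarith)]
    linarith
  obtain ⟨z, ⟨hzU, hzS'⟩, hfz⟩ := hball hmem
  have him0 : (f z₀).im = 0 := by
    rcases hz'.1 with h | h
    · exact absurd h hzS
    · exact h
  refine ⟨z, ?_, ?_⟩
  · rw [hM]
    refine ⟨Or.inr ?_, hzU⟩
    rw [hfz, Complex.add_im, him0, Complex.ofReal_im, add_zero]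
  · rw [hfz, Complex.add_re, Complex.ofReal_re]; linarith

lemma continuousOn_of_good {f : ℂ → ℂ} {S M : Set ℂ} (hf : Good f S) (hMS : Disjoint M S) :
    ContinuousOn (fun z => (f z).re) M := fun z hz =>
  (Complex.continuous_re.continuousAt.comp
    (hf z (disjoint_left.mp hMS hz)).1.continuousAt).continuousWithinAt

lemma no_compact {f : ℂ → ℂ} {S : Set ℂ} (hS : IsClosed S) (hf : Good f S) {M U : Set ℂ}
    (hU : IsOpen U) (hM : M = realSet f S ∩ U) (hMS : Disjoint M S) (hMc : IsCompact M) :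
    M = ∅ := by
  by_contra hne
  obtain ⟨z₀, hz₀, hmax⟩ := hMc.exists_isMaxOn (nonempty_iff_ne_empty.mpr hne)
    (continuousOn_of_good hf hMS)
  obtain ⟨z, hz, hlt⟩ := no_max hS hf hU hM hMS hz₀
  exact absurd (hmax hz) (not_le.mpr hlt)

/-- Every bounded component contains a pole. -/
lemma bounded_component_pole {f : ℂ → ℂ} {S : Set ℂ} (hS : IsClosed S) (hf : Good f S) {z₀ : ℂ}
    (hz : z₀ ∈ realSet f S) (hb : IsBounded (connectedComponentIn (realSet f S) z₀)) :
    ∃ p ∈ S, p ∈ connectedComponentIn (realSet f S) z₀ := by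
  by_contra hcon
  push Not at hcon
  have hd : Disjoint (connectedComponentIn (realSet f S) z₀) S :=
    disjoint_left.mpr fun x hx hxS => hcon x hxS hx
  obtain ⟨M, hMc, ⟨U, hU, hMU⟩, hsub, hMS⟩ :=
    exists_compact_nhd (isClosed_realSet hS hf) hz hb hS hd
  have := no_compact hS hf hU hMU hMS hMc
  rw [this] at hsub
  exact hsub (mem_connectedComponentIn hz)

/-- If `f → 0` at infinity through real values of both signs, then some pole lies in an unbounded
component. -/
lemma exists_unbounded {f : ℂ → ℂ} {S : Set ℂ} (hSf : S.Finite) (hf : Good f S)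
    (h0 : Tendsto f (cocompact ℂ) (𝓝 0))
    (hpos : ∀ ρ : ℝ, ∃ z : ℂ, ρ < ‖z‖ ∧ (f z).im = 0 ∧ 0 < (f z).re) :
    ∃ p ∈ S, ¬ IsBounded (connectedComponentIn (realSet f S) p) := by
  have hS := hSf.isClosed
  have hF := isClosed_realSet hS hf
  by_contra hcon
  push Not at hcon
  have h1 : ∀ p : S, ∃ M U : Set ℂ, IsCompact M ∧ IsOpen U ∧ M = realSet f S ∩ U ∧
      (p : ℂ) ∈ M := by
    intro p
    have hp : (p : ℂ) ∈ realSet f S := Or.inl p.2
    obtain ⟨M, hMc, ⟨U, hU, hMU⟩, hsub, -⟩ :=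
      exists_compact_nhd hF hp (hcon p p.2) isClosed_empty (disjoint_empty _)
    exact ⟨M, U, hMc, hU, hMU, hsub (mem_connectedComponentIn hp)⟩
  choose M U hMc hU hMU hpM using h1
  have : Finite S := hSf
  set K : Set ℂ := ⋃ p, M p with hK
  have hKc : IsCompact K := isCompact_iUnion hMc
  have hKU : K = realSet f S ∩ ⋃ p, U p := by
    rw [hK, inter_iUnion]
    exact iUnion_congr hMU
  have hVo : IsOpen (⋃ p, U p) := isOpen_iUnion hU
  obtain ⟨ρ, hρ⟩ := hKc.isBounded.subset_closedBall (0 : ℂ)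
  set M' : Set ℂ := realSet f S \ K with hM'
  have hM'U : M' = realSet f S ∩ Kᶜ := rfl
  have hM'c : IsClosed M' := by
    have : M' = realSet f S ∩ (⋃ p, U p)ᶜ := by
      ext x
      simp only [hM', hKU, Set.mem_sdiff, mem_inter_iff, mem_compl_iff]
      tauto
    rw [this]
    exact hF.inter hVo.isClosed_compl
  have hM'S : Disjoint M' S := by
    rw [disjoint_left]
    intro x hx hxS
    exact hx.2 (mem_iUnion.mpr ⟨⟨x, hxS⟩, hpM ⟨x, hxS⟩⟩)
  obtain ⟨z₁, hz₁, him₁, hre₁⟩ := hpos ρ
  have hz₁M : z₁ ∈ M' := by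
    refine ⟨Or.inr him₁, fun h => ?_⟩
    have := hρ h
    rw [mem_closedBall_zero_iff] at this
    linarith
  -- the superlevel set is compact
  have hev : ∀ᶠ z in cocompact ℂ, ‖f z‖ < (f z₁).re := by
    have := (tendsto_zero_iff_norm_tendsto_zero.mp h0).eventually_lt_const hre₁
    exact this
  obtain ⟨T, hTc, hT⟩ := mem_cocompact.mp hev
  set L : Set ℂ := {z ∈ M' | (f z₁).re ≤ (f z).re} with hL
  have hLT : L ⊆ T := by
    intro z hz
    by_contra hzT
    have h2 : ‖f z‖ < (f z₁).re := hT hzT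
    have h3 := (Complex.abs_re_le_norm (f z))
    have h4 := le_abs_self (f z).re
    have h5 := hz.2
    linarith
  have hLcl : IsClosed L := by
    have := (continuousOn_of_good hf hM'S).preimage_isClosed_of_isClosed hM'c
      (isClosed_Ici (a := (f z₁).re))
    exact this
  have hLc : IsCompact L := hTc.of_isClosed_subset hLcl hLT
  have hLM : L ⊆ M' := fun z hz => hz.1
  obtain ⟨z₀, hz₀, hmax⟩ := hLc.exists_isMaxOn ⟨z₁, hz₁M, le_rfl⟩
    ((continuousOn_of_good hf hM'S).mono hLM)
  obtain ⟨z, hz, hlt⟩ := no_max hS hf hKc.isClosed.isOpen_compl hM'U hM'S (hLM hz₀)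
  have hzL : z ∈ L := ⟨hz, hz₀.2.trans hlt.le⟩
  exact absurd (hmax hzL) (not_le.mpr hlt)

/-- The bounded connected components of a subset of the plane. -/
def boundedComponents (F : Set ℂ) : Set (Set ℂ) :=
  {C | ∃ z ∈ F, C = connectedComponentIn F z ∧ IsBounded C}

lemma boundedComponents_subset {f : ℂ → ℂ} {S : Set ℂ} (hS : IsClosed S) (hf : Good f S) :
    boundedComponents (realSet f S) ⊆ (fun p => connectedComponentIn (realSet f S) p) ''
      {p | p ∈ S ∧ IsBounded (connectedComponentIn (realSet f S) p)} := by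
  rintro C ⟨z, hz, rfl, hb⟩
  obtain ⟨p, hpS, hp⟩ := bounded_component_pole hS hf hz hb
  have := connectedComponentIn_eq hp
  exact ⟨p, ⟨hpS, by rw [← this]; exact hb⟩, this.symm⟩

lemma upper {f : ℂ → ℂ} {S : Finset ℂ} (hf : Good f S) :
    (boundedComponents (realSet f S)).encard ≤ S.card := by
  refine (encard_le_encard (boundedComponents_subset S.finite_toSet.isClosed hf)).trans ?_
  refine (encard_image_le _ _).trans ?_
  rw [← encard_coe_eq_coe_finsetCard]
  exact encard_le_encard fun p hp => hp.1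

lemma upper' {f : ℂ → ℂ} {S : Finset ℂ} (hf : Good f S)
    (h0 : Tendsto f (cocompact ℂ) (𝓝 0))
    (hpos : ∀ ρ : ℝ, ∃ z : ℂ, ρ < ‖z‖ ∧ (f z).im = 0 ∧ 0 < (f z).re) :
    (boundedComponents (realSet f S)).encard ≤ (S.card - 1 : ℕ) := by
  obtain ⟨p, hpS, hp⟩ := exists_unbounded S.finite_toSet hf h0 hpos
  refine (encard_le_encard (boundedComponents_subset S.finite_toSet.isClosed hf)).trans ?_
  refine (encard_image_le _ _).trans ?_
  rw [← Finset.card_erase_of_mem (Finset.mem_coe.mp hpS), ← encard_coe_eq_coe_finsetCard]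
  refine encard_le_encard fun q hq => ?_
  rw [Finset.coe_erase]
  refine ⟨hq.1, fun h => hp ?_⟩
  rw [mem_singleton_iff] at h
  rw [← h]; exact hq.2

/-- A lower bound: poles which are separated by circles that do not meet the curve. -/
lemma lower {F : Set ℂ} {T : Finset ℂ} (hT : ∀ p ∈ T, p ∈ F) {δ : ℝ} (hδ : 0 < δ)
    (hsep : ∀ p ∈ T, ∀ q ∈ T, p ≠ q → 2 * δ < dist p q)
    (hF : ∀ p ∈ T, ∀ z ∈ sphere p δ, z ∉ F) :
    (T.card : ℕ∞) ≤ (boundedComponents F).encard := by
  have hball : ∀ p ∈ T, connectedComponentIn F p ⊆ ball p δ := by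
    intro p hp
    refine isPreconnected_connectedComponentIn.subset_left_of_subset_union isOpen_ball
      isClosed_closedBall.isOpen_compl (v := (closedBall p δ)ᶜ) ?_ ?_
      ⟨p, mem_connectedComponentIn (hT p hp), mem_ball_self hδ⟩
    · rw [disjoint_left]
      exact fun x hx hx' => hx' (ball_subset_closedBall hx)
    · intro x hx
      by_contra hcon
      rw [mem_union, not_or, mem_compl_iff, not_not] at hcon
      refine hF p hp x ?_ (connectedComponentIn_subset _ _ hx)
      rw [mem_sphere]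
      exact le_antisymm (mem_closedBall.mp hcon.2) (not_lt.mp hcon.1)
  rw [← encard_coe_eq_coe_finsetCard]
  have hinj : InjOn (fun p => connectedComponentIn F p) (T : Set ℂ) := by
    intro p hp q hq hpq
    by_contra hne
    have h1 : q ∈ connectedComponentIn F p := by
      have h2 : connectedComponentIn F p = connectedComponentIn F q := hpq
      rw [h2]; exact mem_connectedComponentIn (hT q hq)
    have h3 := hball p hp h1
    rw [mem_ball, dist_comm] at h3
    have := hsep p hp q hq hne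
    linarith
  rw [← hinj.encard_image]
  refine encard_le_encard ?_
  rintro _ ⟨p, hp, rfl⟩
  exact ⟨p, hT p hp, rfl, isBounded_ball.subset (hball p hp)⟩

/-! ## Rational functions -/

/-- The rational function `R = P / Q`, in lowest terms, has the pole divisor
`∑ m p [p] + k [∞]`: the order of the pole at `p` is the multiplicity of the root `p` of `Q`, and
the order of the pole at `∞` is `deg P - deg Q` if this is positive (`k = 0`: no pole at `∞`). -/
def HasPoleDivisor (P Q : ℂ[X]) (m : ℂ →₀ ℕ) (k : ℕ) : Prop :=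
  IsCoprime P Q ∧ Q ≠ 0 ∧ (∀ p, Q.rootMultiplicity p = m p) ∧ P.natDegree - Q.natDegree = k

/-- The finite part of the curve where the derivative of `R = P / Q` is real or infinite. -/
def curve (P Q : ℂ[X]) : Set ℂ :=
  {z | Q.eval z = 0 ∨ (deriv (fun w => P.eval w / Q.eval w) z).im = 0}

/-- The numerator of the derivative. -/
noncomputable def numD (P Q : ℂ[X]) : ℂ[X] := derivative P * Q - P * derivative Q

/-- The derivative of `P / Q` off the poles. -/
noncomputable def fD (P Q : ℂ[X]) (z : ℂ) : ℂ := (numD P Q).eval z / (Q ^ 2).eval z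

lemma deriv_div (P Q : ℂ[X]) {z : ℂ} (hz : Q.eval z ≠ 0) :
    deriv (fun w => P.eval w / Q.eval w) z = fD P Q z := by
  rw [((P.hasDerivAt z).fun_div (Q.hasDerivAt z) hz).deriv]
  simp [fD, numD]

lemma curve_eq (P Q : ℂ[X]) : curve P Q = realSet (fD P Q) {z | Q.eval z = 0} := by
  ext z
  by_cases hz : Q.eval z = 0
  · simp [curve, realSet, hz]
  · simp [curve, realSet, hz, deriv_div P Q hz]

lemma numD_ne {P Q : ℂ[X]} (h : IsCoprime P Q) (hQ : 0 < Q.natDegree) (c : ℂ) :
    numD P Q ≠ C c * Q ^ 2 := by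
  intro he
  have h1 : P * derivative Q = Q * (derivative P - C c * Q) := by
    have : numD P Q = derivative P * Q - P * derivative Q := rfl
    rw [this] at he
    linear_combination -he
  have h2 : Q ∣ derivative Q := h.symm.dvd_of_dvd_mul_left ⟨_, h1⟩
  have h3 : derivative Q = 0 := by
    by_contra hne
    have h4 := Polynomial.natDegree_le_of_dvd h2 hne
    have h5 := natDegree_derivative_lt hQ.ne'
    omega
  have h6 := Polynomial.derivative_eq_zero.mp h3
  omega

lemma good {P Q : ℂ[X]} (h : IsCoprime P Q) (hQ : 0 < Q.natDegree) :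
    Good (fD P Q) {z | Q.eval z = 0} := by
  intro z hz
  have hz' : (Q ^ 2).eval z ≠ 0 := by
    rw [eval_pow]; exact pow_ne_zero _ hz
  refine ⟨((numD P Q).differentiable.analyticAt z).div ((Q ^ 2).differentiable.analyticAt z) hz', ?_⟩
  intro hc
  have h1 : ∀ᶠ w in 𝓝 z, (Q ^ 2).eval w ≠ 0 :=
    (Q ^ 2).continuous.continuousAt.eventually_ne hz'
  refine numD_ne h hQ (fD P Q z) ?_
  refine Polynomial.eq_of_infinite_eval_eq _ _ ?_
  refine Set.Infinite.mono (s := {w | fD P Q w = fD P Q z ∧ (Q ^ 2).eval w ≠ 0}) ?_ ?_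
  · rintro w ⟨hw1, hw2⟩
    simp only [mem_ofPred_eq, eval_mul, eval_C]
    rw [← hw1, fD, div_mul_cancel₀ _ hw2]
  · exact infinite_of_mem_nhds z (hc.and h1)

/-! ### Behaviour at infinity -/

/-- `A / B` in the coordinate `w = 1 / z`. -/
noncomputable def gInf (A B : ℂ[X]) (w : ℂ) : ℂ :=
  w ^ (B.natDegree - A.natDegree) * A.reverse.eval w / B.reverse.eval w

lemma gInf_eq {A B : ℂ[X]} (hd : A.natDegree < B.natDegree) {w : ℂ} (hw : w ≠ 0) :
    gInf A B w = A.eval w⁻¹ / B.eval w⁻¹ := by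
  have key : ∀ F : ℂ[X], F.eval w⁻¹ = F.reverse.eval w * (w⁻¹) ^ F.natDegree := by
    intro F
    let _ : Invertible (w⁻¹) := ⟨w, mul_inv_cancel₀ hw, inv_mul_cancel₀ hw⟩
    have := eval₂_reverse_mul_pow (RingHom.id ℂ) (w⁻¹) F
    simp only [eval₂_id] at this
    exact this.symm
  rw [key A, key B, gInf, inv_pow, inv_pow]
  obtain ⟨c, hc⟩ : ∃ c, B.natDegree = A.natDegree + c := ⟨_, (Nat.add_sub_cancel' hd.le).symm⟩
  rw [hc, Nat.add_sub_cancel_left, pow_add]
  have h1 : w ^ A.natDegree ≠ 0 := pow_ne_zero _ hw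
  have h2 : w ^ c ≠ 0 := pow_ne_zero _ hw
  by_cases hB : B.reverse.eval w = 0
  · simp [hB]
  · field_simp

lemma gInf_analytic {A B : ℂ[X]} (hB : B ≠ 0) : AnalyticAt ℂ (gInf A B) 0 := by
  have h0 : B.reverse.eval 0 ≠ 0 := by
    rw [← coeff_zero_eq_eval_zero, coeff_zero_reverse]; exact leadingCoeff_ne_zero.mpr hB
  exact ((analyticAt_id.pow _).mul (A.reverse.differentiable.analyticAt 0)).div
    (B.reverse.differentiable.analyticAt 0) h0

lemma gInf_zero {A B : ℂ[X]} (hd : A.natDegree < B.natDegree) : gInf A B 0 = 0 := by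
  rw [gInf, zero_pow (by omega)]; simp

lemma tendsto_inf {A B : ℂ[X]} (hd : A.natDegree < B.natDegree) :
    Tendsto (fun z => A.eval z / B.eval z) (cocompact ℂ) (𝓝 0) := by
  have hB : B ≠ 0 := by rintro rfl; simp at hd
  have h1 : Tendsto (fun z : ℂ => gInf A B z⁻¹) (cocompact ℂ) (𝓝 0) := by
    have h2 := (gInf_analytic (A := A) hB).continuousAt.tendsto
    rw [gInf_zero hd] at h2
    rw [← Metric.cobounded_eq_cocompact]
    exact h2.comp tendsto_inv₀_cobounded
  refine h1.congr' ?_
  have h3 : ∀ᶠ z : ℂ in cocompact ℂ, z ≠ 0 := by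
    have := (isCompact_singleton (x := (0 : ℂ))).compl_mem_cocompact
    filter_upwards [this] with z hz
    exact hz
  filter_upwards [h3] with z hz
  rw [gInf_eq hd (inv_ne_zero hz), inv_inv]

lemma pos_inf {A B : ℂ[X]} (hA : A ≠ 0) (hd : A.natDegree < B.natDegree) (ρ : ℝ) :
    ∃ z : ℂ, ρ < ‖z‖ ∧ (A.eval z / B.eval z).im = 0 ∧ 0 < (A.eval z / B.eval z).re := by
  have hB : B ≠ 0 := by rintro rfl; simp at hd
  have hA0 : A.reverse.eval 0 ≠ 0 := by
    rw [← coeff_zero_eq_eval_zero, coeff_zero_reverse]; exact leadingCoeff_ne_zero.mpr hA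
  have hB0 : B.reverse.eval 0 ≠ 0 := by
    rw [← coeff_zero_eq_eval_zero, coeff_zero_reverse]; exact leadingCoeff_ne_zero.mpr hB
  have hnc : ¬ ∀ᶠ w in 𝓝 (0 : ℂ), gInf A B w = gInf A B 0 := by
    intro h
    have h1 := A.reverse.continuous.continuousAt.eventually_ne hA0
    have h2 := B.reverse.continuous.continuousAt.eventually_ne hB0
    have h3 : ∀ᶠ w in 𝓝[≠] (0 : ℂ), False := by
      filter_upwards [h.filter_mono nhdsWithin_le_nhds, h1.filter_mono nhdsWithin_le_nhds,
        h2.filter_mono nhdsWithin_le_nhds, self_mem_nhdsWithin] with w hw hw1 hw2 hw3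
      rw [gInf_zero hd, gInf] at hw
      exact (div_ne_zero (mul_ne_zero (pow_ne_zero _ hw3) hw1) hw2) hw
    rw [eventually_false_iff_eq_bot] at h3
    exact (NormedField.nhdsNE_neBot (0 : ℂ)).ne h3
  have hmap := (gInf_analytic (A := A) hB).eventually_constant_or_nhds_le_map_nhds.resolve_left hnc
  have hr : (0 : ℝ) < (|ρ| + 1)⁻¹ := by positivity
  have himg : gInf A B '' (ball 0 (|ρ| + 1)⁻¹) ∈ 𝓝 (gInf A B 0) :=
    hmap (image_mem_map (ball_mem_nhds _ hr))
  rw [gInf_zero hd] at himg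
  obtain ⟨ε, hε, hball⟩ := Metric.mem_nhds_iff.mp himg
  have hmem : ((ε / 2 : ℝ) : ℂ) ∈ ball (0 : ℂ) ε := by
    rw [mem_ball_zero_iff, Complex.norm_real, Real.norm_eq_abs, abs_of_pos (by linarith)]
    linarith
  obtain ⟨w, hw, hgw⟩ := hball hmem
  have hw0 : w ≠ 0 := by
    rintro rfl
    rw [gInf_zero hd] at hgw
    have := congrArg Complex.re hgw
    simp at this
    linarith
  refine ⟨w⁻¹, ?_, ?_⟩
  · rw [mem_ball_zero_iff] at hw
    have h1 : |ρ| + 1 < ‖w⁻¹‖ := by
      rw [norm_inv]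
      exact (lt_inv_comm₀ (by positivity) (norm_pos_iff.mpr hw0)).mpr hw
    linarith [le_abs_self ρ]
  · rw [← gInf_eq hd hw0, hgw]
    constructor
    · exact Complex.ofReal_im _
    · rw [Complex.ofReal_re]; linarith

lemma natDegree_numD {P Q : ℂ[X]} (hQ : 0 < Q.natDegree) (hP : P.natDegree ≤ Q.natDegree) :
    (numD P Q).natDegree < (Q ^ 2).natDegree := by
  rw [natDegree_pow]
  have h1 : (derivative P * Q).natDegree ≤ 2 * Q.natDegree - 1 := by
    refine natDegree_mul_le.trans ?_
    rcases Nat.eq_zero_or_pos P.natDegree with h | h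
    · have : derivative P = 0 := by
        rw [eq_C_of_natDegree_eq_zero h]; simp
      rw [this, natDegree_zero]; omega
    · have := natDegree_derivative_lt h.ne'
      omega
  have h2 : (P * derivative Q).natDegree ≤ 2 * Q.natDegree - 1 := by
    refine natDegree_mul_le.trans ?_
    have := natDegree_derivative_lt hQ.ne'
    omega
  have h3 := (natDegree_sub_le (derivative P * Q) (P * derivative Q)).trans (max_le h1 h2)
  have h4 : numD P Q = derivative P * Q - P * derivative Q := rfl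
  rw [h4]
  omega

/-! ## Existence -/

/-- The denominator `∏ (X - p) ^ m p`. -/
noncomputable def den (m : ℂ →₀ ℕ) : ℂ[X] := ∏ p ∈ m.support, (X - C p) ^ m p

/-- The denominator without the factor of `q`. -/
noncomputable def denE (m : ℂ →₀ ℕ) (q : ℂ) : ℂ[X] := ∏ p ∈ m.support.erase q, (X - C p) ^ m p

lemma den_eq (m : ℂ →₀ ℕ) {q : ℂ} (hq : q ∈ m.support) :
    den m = (X - C q) ^ m q * denE m q := by
  exact (Finset.mul_prod_erase _ (fun p => (X - C p) ^ m p) hq).symm

lemma den_monic (m : ℂ →₀ ℕ) : (den m).Monic :=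
  monic_prod_of_monic _ _ fun p _ => (monic_X_sub_C p).pow _

lemma denE_monic (m : ℂ →₀ ℕ) (q : ℂ) : (denE m q).Monic :=
  monic_prod_of_monic _ _ fun p _ => (monic_X_sub_C p).pow _

lemma den_eval (m : ℂ →₀ ℕ) (z : ℂ) : (den m).eval z = 0 ↔ z ∈ m.support := by
  rw [den, eval_prod, Finset.prod_eq_zero_iff]
  constructor
  · rintro ⟨p, hp, h⟩
    rw [eval_pow, eval_sub, eval_X, eval_C] at h
    have := sub_eq_zero.mp (eq_zero_of_pow_eq_zero h)
    rw [this]; exact hp
  · intro hz
    refine ⟨z, hz, ?_⟩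
    rw [eval_pow, eval_sub, eval_X, eval_C, sub_self]
    exact zero_pow (Finsupp.mem_support_iff.mp hz)

lemma denE_eval (m : ℂ →₀ ℕ) (q z : ℂ) :
    (denE m q).eval z = 0 ↔ z ∈ m.support ∧ z ≠ q := by
  rw [denE, eval_prod, Finset.prod_eq_zero_iff]
  constructor
  · rintro ⟨p, hp, h⟩
    rw [eval_pow, eval_sub, eval_X, eval_C] at h
    have := sub_eq_zero.mp (eq_zero_of_pow_eq_zero h)
    rw [this]
    exact ⟨Finset.mem_of_mem_erase hp, Finset.ne_of_mem_erase hp⟩
  · rintro ⟨hz, hzq⟩
    refine ⟨z, Finset.mem_erase.mpr ⟨hzq, hz⟩, ?_⟩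
    rw [eval_pow, eval_sub, eval_X, eval_C, sub_self]
    exact zero_pow (Finsupp.mem_support_iff.mp hz)

lemma den_rootMultiplicity (m : ℂ →₀ ℕ) (q : ℂ) : (den m).rootMultiplicity q = m q := by
  by_cases hq : q ∈ m.support
  · rw [den_eq m hq, rootMultiplicity_mul (by rw [← den_eq m hq]; exact (den_monic m).ne_zero),
      rootMultiplicity_X_sub_C_pow]
    have : (denE m q).rootMultiplicity q = 0 := by
      refine rootMultiplicity_eq_zero fun h => ?_
      exact ((denE_eval m q q).mp h).2 rfl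
    rw [this, add_zero]
  · rw [Finsupp.notMem_support_iff.mp hq]
    refine rootMultiplicity_eq_zero fun h => hq ((den_eval m q).mp h)

/-- The sum of the polar parts `(z - p) ^ (- m p)`, `p ∈ T`. -/
noncomputable def hT (m : ℂ →₀ ℕ) (T : Finset ℂ) (z : ℂ) : ℂ := ∑ p ∈ T, ((z - p) ^ m p)⁻¹

lemma hT_analytic (m : ℂ →₀ ℕ) {T : Finset ℂ} {z : ℂ} (hz : z ∉ T) : AnalyticAt ℂ (hT m T) z := by
  have : hT m T = ∑ p ∈ T, fun z => ((z - p) ^ m p)⁻¹ := by
    ext z; simp [hT, Finset.sum_apply]
  rw [this]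
  refine Finset.analyticAt_sum _ fun p hp => ?_
  refine ((analyticAt_id.sub analyticAt_const).pow _).inv ?_
  refine pow_ne_zero _ (sub_ne_zero.mpr ?_)
  rintro rfl
  exact hz hp

lemma frac_eq (m : ℂ →₀ ℕ) {T : Finset ℂ} (hTS : T ⊆ m.support) (P0 : ℂ[X]) (ε : ℝ) {z : ℂ}
    (hz : z ∉ m.support) :
    (P0 + C (ε : ℂ) * ∑ p ∈ T, denE m p).eval z / (den m).eval z =
      P0.eval z / (den m).eval z + (ε : ℂ) * hT m T z := by
  have hd : (den m).eval z ≠ 0 := fun h => hz ((den_eval m z).mp h)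
  rw [eval_add, add_div, eval_mul, eval_C, eval_finsetSum, mul_div_assoc, Finset.sum_div, hT]
  congr 2
  refine Finset.sum_congr rfl fun p hp => ?_
  have hp' := hTS hp
  have hzp : z - p ≠ 0 := sub_ne_zero.mpr (by rintro rfl; exact hz hp')
  have h2 : (denE m p).eval z ≠ 0 := fun h => hz ((denE_eval m p z).mp h).1
  rw [den_eq m hp', eval_mul, eval_pow, eval_sub, eval_X, eval_C]
  field_simp

/-- The perturbation argument. -/
lemma perturb (m : ℂ →₀ ℕ) {T : Finset ℂ} (hTS : T ⊆ m.support) (P0 : ℂ[X]) (G : ℂ → ℂ)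
    (hG : ∀ z ∉ m.support, P0.eval z / (den m).eval z = G z)
    (hGa : ∀ p ∈ T, AnalyticAt ℂ G p) (hGim : ∀ p ∈ T, (deriv G p).im ≠ 0) :
    ∃ ε : ℝ, 0 < ε ∧ (T.card : ℕ∞) ≤
      (boundedComponents (curve (P0 + C (ε : ℂ) * ∑ p ∈ T, denE m p) (den m))).encard := by
  classical
  -- the radius
  have h1 : ∀ p ∈ T, ∀ᶠ δ in 𝓝[>] (0 : ℝ), ∀ z ∈ closedBall p δ,
      AnalyticAt ℂ G z ∧ (deriv G z).im ≠ 0 := by
    intro p hp
    have e1 := (hGa p hp).eventually_analyticAt
    have e2 : ∀ᶠ z in 𝓝 p, (deriv G z).im ≠ 0 :=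
      (Complex.continuous_im.continuousAt.comp (hGa p hp).deriv.continuousAt).eventually_ne (hGim p hp)
    obtain ⟨r, hr, hr'⟩ := Metric.eventually_nhds_iff.mp (e1.and e2)
    filter_upwards [Ioo_mem_nhdsGT hr] with δ hδ z hz
    exact hr' (lt_of_le_of_lt (mem_closedBall.mp hz) hδ.2)
  have h2 : ∀ p ∈ m.support, ∀ q ∈ m.support, ∀ᶠ δ in 𝓝[>] (0 : ℝ), p ≠ q → 2 * δ < dist p q := by
    intro p _ q _
    by_cases hpq : p = q
    · exact Eventually.of_forall fun δ h => absurd hpq h
    · have hd : 0 < dist p q / 2 := by have := dist_pos.mpr hpq; linarith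
      filter_upwards [Ioo_mem_nhdsGT hd] with δ hδ _
      linarith [hδ.2]
  have h3 := (Finset.eventually_all T).mpr h1
  have h4 : ∀ᶠ δ in 𝓝[>] (0 : ℝ), ∀ p ∈ m.support, ∀ q ∈ m.support, p ≠ q → 2 * δ < dist p q :=
    (Finset.eventually_all _).mpr fun p hp => (Finset.eventually_all _).mpr (h2 p hp)
  obtain ⟨δ, ⟨hδ1, hδ2⟩, hδ⟩ := ((h3.and h4).and self_mem_nhdsWithin).exists
  set K : Set ℂ := ⋃ p ∈ T, sphere p δ with hK
  have hKc : IsCompact K := T.finite_toSet.isCompact_biUnion fun p _ => isCompact_sphere p δ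
  have hKS : ∀ z ∈ K, z ∉ m.support := by
    intro z hz hzS
    obtain ⟨p, hp, hzp⟩ := mem_iUnion₂.mp hz
    rw [mem_sphere] at hzp
    by_cases h : z = p
    · rw [h, dist_self] at hzp; linarith
    · have := hδ2 z hzS p (hTS hp) h
      linarith
  have hKG : ∀ z ∈ K, AnalyticAt ℂ G z ∧ (deriv G z).im ≠ 0 := by
    intro z hz
    obtain ⟨p, hp, hzp⟩ := mem_iUnion₂.mp hz
    exact hδ1 p hp z (sphere_subset_closedBall hzp)
  -- bounds on K
  have hcont1 : ContinuousOn (fun z => |(deriv G z).im|) K := fun z hz =>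
    ((continuous_abs.comp Complex.continuous_im).continuousAt.comp
      (hKG z hz).1.deriv.continuousAt).continuousWithinAt
  have hcont2 : ContinuousOn (fun z => ‖deriv (hT m T) z‖) K := fun z hz =>
    ((hT_analytic m fun h => hKS z hz (hTS h)).deriv.continuousAt.norm).continuousWithinAt
  obtain ⟨η, hη, hη'⟩ : ∃ η : ℝ, 0 < η ∧ ∀ z ∈ K, η ≤ |(deriv G z).im| := by
    rcases K.eq_empty_or_nonempty with he | hne
    · exact ⟨1, one_pos, fun z hz => by rw [he] at hz; exact absurd hz (notMem_empty z)⟩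
    · obtain ⟨z₀, hz₀, hmin⟩ := hKc.exists_isMinOn hne hcont1
      exact ⟨_, abs_pos.mpr (hKG z₀ hz₀).2, fun z hz => hmin hz⟩
  obtain ⟨B, hB0, hB⟩ : ∃ B : ℝ, 0 ≤ B ∧ ∀ z ∈ K, ‖deriv (hT m T) z‖ ≤ B := by
    rcases K.eq_empty_or_nonempty with he | hne
    · exact ⟨0, le_rfl, fun z hz => by rw [he] at hz; exact absurd hz (notMem_empty z)⟩
    · obtain ⟨z₀, hz₀, hmax⟩ := hKc.exists_isMaxOn hne hcont2
      exact ⟨_, norm_nonneg _, fun z hz => hmax hz⟩
  set ε : ℝ := η / (2 * (B + 1)) with hε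
  have hεpos : 0 < ε := by positivity
  have hεB : ε * B < η := by
    rw [hε, div_mul_eq_mul_div, div_lt_iff₀ (by positivity)]
    nlinarith
  refine ⟨ε, hεpos, lower (T := T) ?_ hδ (fun p hp q hq => hδ2 p (hTS hp) q (hTS hq)) ?_⟩
  · intro p hp
    exact Or.inl ((den_eval m p).mpr (hTS hp))
  · intro p hp z hz hzc
    have hzK : z ∈ K := mem_iUnion₂.mpr ⟨p, hp, hz⟩
    have hzS := hKS z hzK
    rcases hzc with h | h
    · exact hzS ((den_eval m z).mp h)
    · have hev : (fun w => (P0 + C (ε : ℂ) * ∑ p ∈ T, denE m p).eval w / (den m).eval w) =ᶠ[𝓝 z]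
          fun w => G w + (ε : ℂ) * hT m T w := by
        have : ∀ᶠ w in 𝓝 z, w ∉ m.support :=
          m.support.finite_toSet.isClosed.isOpen_compl.mem_nhds hzS
        filter_upwards [this] with w hw
        rw [frac_eq m hTS P0 ε hw, hG w hw]
      rw [hev.deriv_eq] at h
      have ha := (hKG z hzK).1.differentiableAt.hasDerivAt
      have hb := (hT_analytic m fun h => hzS (hTS h) : AnalyticAt ℂ (hT m T) z).differentiableAt.hasDerivAt
      have hderiv := (ha.add (hb.const_mul (ε : ℂ))).deriv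
      have h5 : (deriv G z + (ε : ℂ) * deriv (hT m T) z).im = 0 := by
        rw [← hderiv]; exact h
      rw [Complex.add_im] at h5
      have h6 : ((ε : ℂ) * deriv (hT m T) z).im = ε * (deriv (hT m T) z).im := by
        simp
      rw [h6] at h5
      have h7 := hη' z hzK
      have h8 := hB z hzK
      have h9 := Complex.abs_im_le_norm (deriv (hT m T) z)
      have h10 : |(deriv G z).im| = ε * |(deriv (hT m T) z).im| := by
        have h12 : (deriv G z).im = -(ε * (deriv (hT m T) z).im) := by linarith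
        rw [h12, abs_neg, abs_mul, abs_of_pos hεpos]
      have h11 : ε * |(deriv (hT m T) z).im| ≤ ε * B :=
        mul_le_mul_of_nonneg_left (h9.trans h8) hεpos.le
      linarith

lemma root_set {P Q : ℂ[X]} {m : ℂ →₀ ℕ} {k : ℕ} (h : HasPoleDivisor P Q m k) :
    {z | Q.eval z = 0} = (m.support : Set ℂ) := by
  obtain ⟨-, hQ, hm, -⟩ := h
  ext z
  rw [Finset.mem_coe, Finsupp.mem_support_iff, ← hm z, mem_ofPred_eq, ← IsRoot.def]
  rw [← Nat.pos_iff_ne_zero, rootMultiplicity_pos hQ]

lemma natDegree_pos' {P Q : ℂ[X]} {m : ℂ →₀ ℕ} {k : ℕ} (h : HasPoleDivisor P Q m k)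
    (hm : m ≠ 0) : 0 < Q.natDegree := by
  obtain ⟨p, hp⟩ := Finsupp.support_nonempty_iff.mpr hm
  have h1 : p ∈ {z | Q.eval z = 0} := by rw [root_set h]; exact hp
  have h2 := (h.2.2.1 p)
  rw [Finsupp.mem_support_iff, ← h2] at hp
  have h3 := Polynomial.natDegree_pos_iff_degree_pos.mpr
    (Polynomial.degree_pos_of_root h.2.1 (show IsRoot Q p from h1))
  exact h3

/-- The maximal number of bounded components. -/
def value (m : ℂ →₀ ℕ) (k : ℕ) : ℕ := if k = 0 then m.support.card - 1 else m.support.card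

lemma upper_bound {P Q : ℂ[X]} {m : ℂ →₀ ℕ} {k : ℕ} (h : HasPoleDivisor P Q m k) (hm : m ≠ 0) :
    (boundedComponents (curve P Q)).encard ≤ value m k := by
  have hQ := natDegree_pos' h hm
  have hg := good h.1 hQ
  rw [curve_eq, root_set h]
  rw [root_set h] at hg
  unfold value
  split_ifs with hk
  · have hd : (numD P Q).natDegree < (Q ^ 2).natDegree := by
      refine natDegree_numD hQ ?_
      have := h.2.2.2
      omega
    have hne : numD P Q ≠ 0 := by
      have := numD_ne h.1 hQ 0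
      simpa using this
    exact upper' hg (tendsto_inf hd) (pos_inf hne hd)
  · exact upper hg

/-- A complex number `c` for which finitely many products `c * w` are not real. -/
lemma exists_c {T : Finset ℂ} {w : ℂ → ℂ} (hw : ∀ p ∈ T, w p ≠ 0) :
    ∃ c : ℂ, c ≠ 0 ∧ ∀ p ∈ T, (c * w p).im ≠ 0 := by
  classical
  obtain ⟨t, ht⟩ := Infinite.exists_notMem_finset (T.image fun p => -(w p).im / (w p).re)
  refine ⟨1 + t * Complex.I, ?_, fun p hp h => ?_⟩
  · intro h
    have := congrArg Complex.re h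
    simp at this
  · have h1 : (w p).im + t * (w p).re = 0 := by
      have : ((1 + t * Complex.I) * w p).im = (w p).im + t * (w p).re := by
        simp [Complex.add_im, Complex.mul_im]
      rw [← this]; exact h
    by_cases hu : (w p).re = 0
    · rw [hu, mul_zero, add_zero] at h1
      exact hw p hp (Complex.ext hu h1)
    · refine ht (Finset.mem_image.mpr ⟨p, hp, ?_⟩)
      rw [div_eq_iff hu]
      linarith

lemma coprime_of {m : ℂ →₀ ℕ} {T : Finset ℂ} {P0 : ℂ[X]} {ε : ℝ}
    (hε : 0 < ε) (h0 : ∀ p ∈ T, P0.eval p = 0) (h1 : ∀ p ∈ m.support, p ∉ T → P0.eval p ≠ 0) :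
    IsCoprime (P0 + C (ε : ℂ) * ∑ p ∈ T, denE m p) (den m) := by
  rw [Polynomial.isCoprime_iff_aeval_ne_zero_of_isAlgClosed ℂ ℂ]
  intro a
  simp only [Polynomial.coe_aeval_eq_eval]
  by_cases ha : a ∈ m.support
  · left
    rw [eval_add, eval_mul, eval_C, eval_finsetSum]
    by_cases haT : a ∈ T
    · rw [h0 a haT, zero_add, Finset.sum_eq_single_of_mem a haT fun q _ hq =>
        (denE_eval m q a).mpr ⟨ha, hq.symm⟩]
      refine mul_ne_zero ?_ fun h => ((denE_eval m a a).mp h).2 rfl
      exact_mod_cast hε.ne'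
    · rw [Finset.sum_eq_zero fun q hq => (denE_eval m q a).mpr ⟨ha, fun h => haT (h ▸ hq)⟩,
        mul_zero, add_zero]
      exact h1 a ha haT
  · right
    exact fun h => ha ((den_eval m a).mp h)

lemma natDegree_denE_le (m : ℂ →₀ ℕ) {q : ℂ} (hq : q ∈ m.support) :
    (denE m q).natDegree ≤ (den m).natDegree := by
  rw [den_eq m hq, natDegree_mul (pow_ne_zero _ (X_sub_C_ne_zero q)) (denE_monic m q).ne_zero]
  omega

lemma natDegree_pert (m : ℂ →₀ ℕ) {T : Finset ℂ} (hTS : T ⊆ m.support) (c : ℂ) :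
    (C c * ∑ p ∈ T, denE m p).natDegree ≤ (den m).natDegree := by
  refine (natDegree_C_mul_le _ _).trans ?_
  exact natDegree_sum_le_of_forall_le _ _ fun p hp => natDegree_denE_le m (hTS hp)

lemma exists_k0 {m : ℂ →₀ ℕ} (hm : m ≠ 0) : ∃ P Q : ℂ[X], HasPoleDivisor P Q m 0 ∧
    ((m.support.card - 1 : ℕ) : ℕ∞) ≤ (boundedComponents (curve P Q)).encard := by
  classical
  obtain ⟨p₁, hp₁⟩ := Finsupp.support_nonempty_iff.mpr hm
  set T := m.support.erase p₁ with hT
  have hTS : T ⊆ m.support := Finset.erase_subset _ _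
  set n := m p₁ with hn
  have hn0 : n ≠ 0 := Finsupp.mem_support_iff.mp hp₁
  set w : ℂ → ℂ := fun p => -((n : ℂ) * (p - p₁) ^ (n - 1)) / ((p - p₁) ^ n) ^ 2 with hw
  obtain ⟨c, hc0, hc⟩ := exists_c (T := T) (w := w) (by
    intro p hp
    have : p - p₁ ≠ 0 := sub_ne_zero.mpr (Finset.ne_of_mem_erase hp)
    exact div_ne_zero (neg_ne_zero.mpr (mul_ne_zero (by exact_mod_cast hn0) (pow_ne_zero _ this)))
      (pow_ne_zero _ (pow_ne_zero _ this)))
  have hder : ∀ z, z ≠ p₁ → HasDerivAt (fun z => c * ((z - p₁) ^ n)⁻¹) (c * w z) z := by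
    intro z hz
    have h0 : (z - p₁) ^ n ≠ 0 := pow_ne_zero _ (sub_ne_zero.mpr hz)
    have h1 := ((((hasDerivAt_id z).sub_const p₁).fun_pow n).fun_inv h0).const_mul c
    simp only [id] at h1
    refine h1.congr_deriv ?_
    simp only [hw, mul_one]
  have hden : ∀ z ∉ m.support, (C c * denE m p₁).eval z / (den m).eval z = c * ((z - p₁) ^ n)⁻¹ := by
    intro z hz
    have h2 : (denE m p₁).eval z ≠ 0 := fun h => hz ((denE_eval m p₁ z).mp h).1
    have hzp : z - p₁ ≠ 0 := sub_ne_zero.mpr (by rintro rfl; exact hz hp₁)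
    rw [den_eq m hp₁, eval_mul, eval_mul, eval_pow, eval_sub, eval_X, eval_C, eval_C, hn]
    field_simp
  obtain ⟨ε, hε, hle⟩ := perturb m hTS (C c * denE m p₁) _ hden (fun p hp => by
      have hpp : p - p₁ ≠ 0 := sub_ne_zero.mpr (Finset.ne_of_mem_erase hp)
      exact analyticAt_const.mul (((analyticAt_id.sub analyticAt_const).pow n).inv
        (pow_ne_zero _ hpp)))
    (fun p hp => by rw [(hder p (Finset.ne_of_mem_erase hp)).deriv]; exact hc p hp)
  refine ⟨C c * denE m p₁ + C (ε : ℂ) * ∑ p ∈ T, denE m p, den m,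
    ⟨coprime_of hε ?_ ?_, (den_monic m).ne_zero, den_rootMultiplicity m, ?_⟩, ?_⟩
  · intro p hp
    rw [eval_mul, (denE_eval m p₁ p).mpr ⟨hTS hp, Finset.ne_of_mem_erase hp⟩, mul_zero]
  · intro p hp hpT
    have : p = p₁ := by
      by_contra h
      exact hpT (Finset.mem_erase.mpr ⟨h, hp⟩)
    rw [this, eval_mul, eval_C]
    exact mul_ne_zero hc0 fun h => ((denE_eval m p₁ p₁).mp h).2 rfl
  · have h3 : (C c * denE m p₁).natDegree ≤ (den m).natDegree :=
      (natDegree_C_mul_le _ _).trans (natDegree_denE_le m hp₁)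
    have h4 := (natDegree_add_le (C c * denE m p₁) (C (ε : ℂ) * ∑ p ∈ T, denE m p)).trans
      (max_le h3 (natDegree_pert m hTS _))
    exact Nat.sub_eq_zero_of_le h4
  · rw [← Finset.card_erase_of_mem hp₁]
    exact hle

lemma exists_kpos {m : ℂ →₀ ℕ} {k : ℕ} (hk : k ≠ 0) : ∃ P Q : ℂ[X],
    HasPoleDivisor P Q m k ∧
    (m.support.card : ℕ∞) ≤ (boundedComponents (curve P Q)).encard := by
  classical
  obtain ⟨a, ha⟩ := Infinite.exists_notMem_finset m.support
  set w : ℂ → ℂ := fun p => (k : ℂ) * (p - a) ^ (k - 1) with hw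
  obtain ⟨c, hc0, hc⟩ := exists_c (T := m.support) (w := w) (by
    intro p hp
    have : p - a ≠ 0 := sub_ne_zero.mpr (by rintro rfl; exact ha hp)
    exact mul_ne_zero (by exact_mod_cast hk) (pow_ne_zero _ this))
  have hder : ∀ z, HasDerivAt (fun z => c * (z - a) ^ k) (c * w z) z := by
    intro z
    have h1 := (((hasDerivAt_id z).sub_const a).fun_pow k).const_mul c
    simp only [id] at h1
    refine h1.congr_deriv ?_
    simp only [hw, mul_one]
  have hden : ∀ z ∉ m.support,
      (C c * (X - C a) ^ k * den m).eval z / (den m).eval z = c * (z - a) ^ k := by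
    intro z hz
    have h2 : (den m).eval z ≠ 0 := fun h => hz ((den_eval m z).mp h)
    rw [eval_mul, mul_div_assoc, div_self h2, mul_one, eval_mul, eval_pow, eval_sub, eval_X, eval_C,
      eval_C]
  obtain ⟨ε, hε, hle⟩ := perturb m (Finset.Subset.refl _) (C c * (X - C a) ^ k * den m) _ hden
    (fun p hp => analyticAt_const.mul ((analyticAt_id.sub analyticAt_const).pow k))
    (fun p hp => by rw [(hder p).deriv]; exact hc p hp)
  refine ⟨C c * (X - C a) ^ k * den m + C (ε : ℂ) * ∑ p ∈ m.support, denE m p, den m,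
    ⟨coprime_of hε ?_ ?_, (den_monic m).ne_zero, den_rootMultiplicity m, ?_⟩, hle⟩
  · intro p hp
    rw [eval_mul, (den_eval m p).mpr hp, mul_zero]
  · intro p hp hpT
    exact absurd hp hpT
  · have h1 : (C c * (X - C a) ^ k * den m).natDegree = k + (den m).natDegree := by
      rw [natDegree_mul (mul_ne_zero (C_ne_zero.mpr hc0) (pow_ne_zero _ (X_sub_C_ne_zero a)))
        (den_monic m).ne_zero, natDegree_C_mul hc0, natDegree_pow, natDegree_X_sub_C, mul_one]
    have h2 := natDegree_pert m (Finset.Subset.refl m.support) (ε : ℂ)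
    rw [natDegree_add_eq_left_of_natDegree_lt (by omega), h1]
    omega

/-- **The sharp upper bound.** Let `D = ∑ m p [p] + k [∞]` be a pole divisor with at least one
finite pole. The maximal number of bounded components of the curve where `R'` is real, over
the rational functions `R` with pole divisor `D`, is the number `s(D)` of finite poles if `∞` is a
pole, and `s(D) - 1` if not. -/
theorem result (m : ℂ →₀ ℕ) (k : ℕ) (hm : m ≠ 0) :
    IsGreatest {b : ℕ∞ | ∃ P Q : ℂ[X], HasPoleDivisor P Q m k ∧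
      b = (boundedComponents (curve P Q)).encard} (value m k) := by
  constructor
  · by_cases hk : k = 0
    · subst hk
      obtain ⟨P, Q, h, hle⟩ := exists_k0 hm
      refine ⟨P, Q, h, le_antisymm ?_ (upper_bound h hm)⟩
      rw [value, if_pos rfl]; exact hle
    · obtain ⟨P, Q, h, hle⟩ := exists_kpos (m := m) hk
      refine ⟨P, Q, h, le_antisymm ?_ (upper_bound h hm)⟩
      rw [value, if_neg hk]; exact hle
  · rintro b ⟨P, Q, h, rfl⟩
    exact upper_bound h hm

end Pool.Agent.Results.MP_bd2914_ag.BoundedComponents
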